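import Pool.Agent.H11.NS.Targets

/-!
Module PK of board ns_modules (MP_9b2842_al).
-/

set_option autoImplicit false

namespace Pool.Agent.H51.NS.PK

open Pool.Agent.H11.NS

theorem dvd_sup {A : Type} [Group A] [Finite A] (X Y : Subgroup A) [Y.Normal] {p : ℕ}
    (hp : p.Prime) (h : p ∣ Nat.card ↥(X ⊔ Y)) : p ∣ Nat.card X ∨ p ∣ Nat.card Y := by
  have h1 : Nat.card ↥(X ⊔ Y) = Nat.card Y * Y.relIndex X := by
    have h2 := Subgroup.relIndex_mul_relIndex ⊥ Y (X ⊔ Y) bot_le le_sup_right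
    rw [Subgroup.relIndex_bot_left, Subgroup.relIndex_bot_left, Subgroup.relIndex_sup_right] at h2
    exact h2.symm
  rw [h1] at h
  rcases (Nat.Prime.dvd_mul hp).1 h with h | h
  · exact Or.inr h
  · exact Or.inl (h.trans (Subgroup.relIndex_dvd_card Y X))

/-- the decomposition of a finite nilpotent group -/
theorem nil_split {A : Type} [Group A] [Finite A] (hA : Group.IsNilpotent A) {ℓ : ℕ}
    (hℓ : ℓ.Prime) : ∃ P K : Subgroup A, P.Normal ∧ K.Normal ∧ P ⊔ K = ⊤ ∧ IsPGroup ℓ P ∧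
      ¬ ℓ ∣ Nat.card K := by
  have hS : ∀ (p : ℕ) (_hp : Fact p.Prime) (P : Sylow p A), (P : Subgroup A).Normal :=
    (Group.isNilpotent_of_finite_tfae.out 0 3 rfl rfl).1 hA
  have hT : ∀ T : Finset ℕ, (∀ q ∈ T, q.Prime ∧ q ≠ ℓ) → ∃ K : Subgroup A, K.Normal ∧
      ¬ ℓ ∣ Nat.card K ∧ ∀ (q : ℕ), q ∈ T → ∀ (_ : Fact q.Prime), ∃ P : Sylow q A,
        (P : Subgroup A) ≤ K := by
    intro T
    induction T using Finset.induction_on with
    | empty =>
      intro _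
      refine ⟨⊥, inferInstance, ?_, ?_⟩
      · rw [Subgroup.card_bot]
        intro h
        exact hℓ.one_lt.ne' (Nat.dvd_one.1 h)
      · intro q hq
        simp at hq
    | insert q T hqT ih =>
      intro hT'
      obtain ⟨K, hK, hK2, hK3⟩ := ih (fun r hr => hT' r (Finset.mem_insert_of_mem hr))
      obtain ⟨hq, hqℓ⟩ := hT' q (Finset.mem_insert_self q T)
      have : Fact q.Prime := ⟨hq⟩
      obtain ⟨P⟩ : Nonempty (Sylow q A) := inferInstance
      have : (P : Subgroup A).Normal := hS q ⟨hq⟩ P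
      refine ⟨K ⊔ P, inferInstance, ?_, ?_⟩
      · intro h
        rcases dvd_sup K (P : Subgroup A) hℓ h with h | h
        · exact hK2 h
        · obtain ⟨n, hn⟩ := IsPGroup.iff_card.1 P.isPGroup'
          rw [hn] at h
          exact hqℓ ((Nat.prime_dvd_prime_iff_eq hℓ hq).1 (hℓ.dvd_of_dvd_pow h)).symm
      · intro r hr hr2
        rcases Finset.mem_insert.1 hr with rfl | hr
        · exact ⟨P, le_sup_right⟩
        · obtain ⟨P', hP'⟩ := hK3 r hr hr2
          exact ⟨P', hP'.trans le_sup_left⟩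
  obtain ⟨K, hK, hK2, hK3⟩ := hT ((Nat.card A).primeFactors.erase ℓ) (by
    intro q hq
    rw [Finset.mem_erase] at hq
    exact ⟨Nat.prime_of_mem_primeFactors hq.2, hq.1⟩)
  have : Fact ℓ.Prime := ⟨hℓ⟩
  obtain ⟨P⟩ : Nonempty (Sylow ℓ A) := inferInstance
  refine ⟨P, K, hS ℓ ⟨hℓ⟩ P, hK, ?_, P.isPGroup', hK2⟩
  rw [← Subgroup.index_eq_one]
  by_contra hne
  obtain ⟨r, hr, hr2⟩ := Nat.exists_prime_and_dvd hne
  have : Fact r.Prime := ⟨hr⟩
  obtain ⟨R, hR⟩ : ∃ R : Sylow r A, (R : Subgroup A) ≤ (P : Subgroup A) ⊔ K := by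
    by_cases hrl : r = ℓ
    · subst hrl
      exact ⟨P, le_sup_left⟩
    · have hrA : r ∣ Nat.card A := hr2.trans (Subgroup.index_dvd_card _)
      obtain ⟨R, hR⟩ := hK3 r (by
        rw [Finset.mem_erase]
        exact ⟨hrl, Nat.mem_primeFactors.2 ⟨hr, hrA, Nat.card_pos.ne'⟩⟩) ⟨hr⟩
      exact ⟨R, hR.trans le_sup_right⟩
  exact R.not_dvd_index (hr2.trans (Subgroup.index_dvd_of_le hR))

theorem pow_zero_of {L : Type} [Group L] [Finite L] {ℓ : ℕ} (hℓ : ℓ.Prime) {P K : Subgroup L}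
    (hP : IsPGroup ℓ P) (hK : ¬ ℓ ∣ Nat.card K) (hcom : ∀ a ∈ P, ∀ b ∈ K, a * b = b * a) {p y : L}
    (hp : p ∈ P) (hy : y ∈ K) :
    ((∃ k : ℕ, (p * y) ^ ℓ ^ k = 1) → y = 1) ∧ (¬ ℓ ∣ orderOf (p * y) → p = 1) := by
  have hc : Commute p y := hcom p hp y hy
  obtain ⟨j, hj⟩ := hP ⟨p, hp⟩
  have hj' : p ^ ℓ ^ j = 1 := by
    have := congrArg Subtype.val hj
    simpa using this
  have hyK : orderOf y ∣ Nat.card K := by
    have := orderOf_dvd_natCard (⟨y, hy⟩ : K)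
    rwa [Subgroup.orderOf_mk] at this
  constructor
  · rintro ⟨k, hk⟩
    have h1 : y ^ ℓ ^ (j + k) = 1 := by
      have h2 : (p * y) ^ ℓ ^ (j + k) = 1 := by
        rw [pow_add, mul_comm, pow_mul, hk, one_pow]
      rw [hc.mul_pow] at h2
      have h3 : p ^ ℓ ^ (j + k) = 1 := by
        rw [pow_add, pow_mul, hj', one_pow]
      rwa [h3, one_mul] at h2
    have h4 : orderOf y ∣ ℓ ^ (j + k) := orderOf_dvd_of_pow_eq_one h1
    have h5 : Nat.Coprime (ℓ ^ (j + k)) (orderOf y) := by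
      refine Nat.Coprime.pow_left _ ?_
      rw [Nat.Prime.coprime_iff_not_dvd hℓ]
      intro h
      exact hK (h.trans hyK)
    have h6 : orderOf y = 1 := Nat.dvd_one.1 (by
      have := Nat.dvd_gcd h4 dvd_rfl
      rwa [Nat.Coprime.gcd_eq_one h5] at this)
    exact orderOf_eq_one_iff.1 h6
  · intro hx
    have h1 : p ^ (orderOf (p * y) * Nat.card K) = 1 := by
      have h2 : (p * y) ^ (orderOf (p * y) * Nat.card K) = 1 := by
        rw [pow_mul, pow_orderOf_eq_one, one_pow]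
      rw [hc.mul_pow] at h2
      have h3 : y ^ (orderOf (p * y) * Nat.card K) = 1 := by
        have h4 : y ^ Nat.card K = 1 := orderOf_dvd_iff_pow_eq_one.1 hyK
        rw [mul_comm, pow_mul, h4, one_pow]
      rwa [h3, mul_one] at h2
    have h4 : orderOf p ∣ orderOf (p * y) * Nat.card K := orderOf_dvd_of_pow_eq_one h1
    have h5 : orderOf p ∣ ℓ ^ j := orderOf_dvd_of_pow_eq_one hj'
    have h6 : Nat.Coprime (ℓ ^ j) (orderOf (p * y) * Nat.card K) := by
      refine Nat.Coprime.pow_left _ ?_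
      rw [Nat.Prime.coprime_iff_not_dvd hℓ]
      intro h
      rcases (Nat.Prime.dvd_mul hℓ).1 h with h | h
      · exact hx h
      · exact hK h
    have h7 : orderOf p = 1 := Nat.dvd_one.1 (by
      have := Nat.dvd_gcd h5 h4
      rwa [Nat.Coprime.gcd_eq_one h6] at this)
    exact orderOf_eq_one_iff.1 h7

theorem normals {L : Type} [Group L] [Finite L] {ℓ : ℕ} (hℓ : ℓ.Prime) {N P K : Subgroup L}
    (hN : N.Normal) (hPN : P ≤ N) (hKN : K ≤ N) (hP : IsPGroup ℓ P) (hK : ¬ ℓ ∣ Nat.card K)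
    (hcom : ∀ a ∈ P, ∀ b ∈ K, a * b = b * a) (hall : ∀ x ∈ N, ∃ p ∈ P, ∃ y ∈ K, p * y = x) :
    P.Normal ∧ K.Normal := by
  constructor
  · constructor
    intro x hx g
    obtain ⟨j, hj⟩ := hP ⟨x, hx⟩
    have hj' : x ^ ℓ ^ j = 1 := by
      have := congrArg Subtype.val hj
      simpa using this
    obtain ⟨p, hp, y, hy, hpy⟩ := hall (g * x * g⁻¹) (hN.conj_mem x (hPN hx) g)
    have h1 : y = 1 := (pow_zero_of hℓ hP hK hcom hp hy).1 ⟨j, by
      rw [hpy, conj_pow, hj', mul_one, mul_inv_cancel]⟩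
    rw [← hpy, h1, mul_one]
    exact hp
  · constructor
    intro x hx g
    have hxK : orderOf x ∣ Nat.card K := by
      have := orderOf_dvd_natCard (⟨x, hx⟩ : K)
      rwa [Subgroup.orderOf_mk] at this
    obtain ⟨p, hp, y, hy, hpy⟩ := hall (g * x * g⁻¹) (hN.conj_mem x (hKN hx) g)
    have h1 : p = 1 := (pow_zero_of hℓ hP hK hcom hp hy).2 (by
      rw [hpy]
      intro h
      have h2 : orderOf (g * x * g⁻¹) ∣ orderOf x := by
        rw [orderOf_dvd_iff_pow_eq_one, conj_pow, pow_orderOf_eq_one, mul_one, mul_inv_cancel]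
      exact hK ((h.trans h2).trans hxK))
    rw [← hpy, h1, one_mul]
    exact hy

theorem pf_pk : T_PK := by
  intro L _ _ N A B hN hNAB hAB hA ℓ hℓ hB
  obtain ⟨P₀, K₀, hP₀, hK₀, hPK, hPg, hKc⟩ := nil_split hA hℓ
  have := hP₀
  have := hK₀
  obtain ⟨P, hPdef⟩ : ∃ P : Subgroup L, P = P₀.map A.subtype := ⟨_, rfl⟩
  have hPA : P ≤ A := by rw [hPdef]; exact Subgroup.map_subtype_le P₀
  have hcom0 : ∀ a ∈ P₀, ∀ b ∈ K₀, Commute a b := by
    intro a ha b hb
    refine Subgroup.commute_of_normal_of_disjoint P₀ K₀ hP₀ hK₀ ?_ a b ha hb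
    refine Subgroup.disjoint_of_coprime_natCard ?_
    have : Fact ℓ.Prime := ⟨hℓ⟩
    obtain ⟨n, hn⟩ := IsPGroup.iff_card.1 hPg
    rw [hn]
    exact Nat.Coprime.pow_left _ ((Nat.Prime.coprime_iff_not_dvd hℓ).2 hKc)
  have hABc : ∀ (a : A) (b : B), Commute (A.subtype a) (B.subtype b) :=
    fun a b => hAB a a.2 b b.2
  have hKBc : ∀ (a : K₀) (b : B), Commute ((A.subtype.comp K₀.subtype) a) (B.subtype b) :=
    fun a b => hAB _ (a : A).2 b b.2
  obtain ⟨K, hKdef⟩ : ∃ K : Subgroup L, K = K₀.map A.subtype ⊔ B := ⟨_, rfl⟩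
  have hKr : K = ((A.subtype.comp K₀.subtype).noncommCoprod B.subtype hKBc).range := by
    rw [MonoidHom.noncommCoprod_range, MonoidHom.range_comp, Subgroup.range_subtype,
      Subgroup.range_subtype, hKdef]
  have hKcard : ¬ ℓ ∣ Nat.card K := by
    intro h
    rw [hKr] at h
    have h2 := h.trans (Subgroup.card_range_dvd _)
    rw [Nat.card_prod] at h2
    rcases (Nat.Prime.dvd_mul hℓ).1 h2 with h3 | h3
    · exact hKc h3
    · exact hB h3
  have hPp : IsPGroup ℓ P := by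
    rw [hPdef]
    exact hPg.map A.subtype
  have hPN : P ≤ N := by rw [hNAB]; exact hPA.trans le_sup_left
  have hKN : K ≤ N := by
    rw [hNAB, hKdef]
    exact sup_le_sup_right (Subgroup.map_subtype_le K₀) B
  have hKel : ∀ x ∈ K, ∃ a : A, a ∈ K₀ ∧ ∃ b ∈ B, (a : L) * b = x := by
    intro x hx
    rw [hKr] at hx
    obtain ⟨⟨a, b⟩, hab⟩ := hx
    exact ⟨a, a.2, b, b.2, hab⟩
  have hcom : ∀ a ∈ P, ∀ b ∈ K, a * b = b * a := by
    intro a ha b hb
    obtain ⟨c, hc, d, hd, rfl⟩ := hKel b hb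
    rw [hPdef] at ha
    obtain ⟨a', ha', rfl⟩ := ha
    have h1 : (a' : L) * c = c * a' := congrArg Subtype.val (hcom0 a' ha' c hc).eq
    have h2 : (a' : L) * d = d * a' := hAB a' a'.2 d hd
    change (a' : L) * (c * d) = c * d * a'
    rw [← mul_assoc, h1, mul_assoc, h2, ← mul_assoc]
  have hNr : N = (A.subtype.noncommCoprod B.subtype hABc).range := by
    rw [MonoidHom.noncommCoprod_range, Subgroup.range_subtype, Subgroup.range_subtype, hNAB]
  have hall : ∀ x ∈ N, ∃ p ∈ P, ∃ y ∈ K, p * y = x := by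
    intro x hx
    rw [hNr] at hx
    obtain ⟨⟨a, b⟩, hab⟩ := hx
    have ha : a ∈ P₀ ⊔ K₀ := by rw [hPK]; exact Subgroup.mem_top a
    rw [Subgroup.mem_sup_of_normal_left] at ha
    obtain ⟨p, hp, y, hy, hpy⟩ := ha
    refine ⟨p, ?_, y * b, ?_, ?_⟩
    · rw [hPdef]
      exact Subgroup.mem_map_of_mem A.subtype hp
    · rw [hKdef]
      exact Subgroup.mul_mem_sup (Subgroup.mem_map_of_mem A.subtype hy) b.2
    · rw [← mul_assoc, ← hab]
      change (p : L) * y * b = (a : L) * b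
      rw [← hpy]
      rfl
  obtain ⟨h1, h2⟩ := normals hℓ hN hPN hKN hPp hKcard hcom hall
  refine ⟨P, K, h1, h2, ?_, hPp, hKcard⟩
  refine le_antisymm (sup_le hPN hKN) ?_
  intro x hx
  obtain ⟨p, hp, y, hy, rfl⟩ := hall x hx
  exact Subgroup.mul_mem_sup hp hy

end Pool.Agent.H51.NS.PK
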